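import Mathlib

set_option autoImplicit false

namespace Pool.Agent.Results.MP_93d976_co.Counter

open Finset

abbrev Cube := ℕ × ℕ × ℕ

/-- The box `{1..k} × {1..l} × {1..m}`. -/
def box (k l m : ℕ) : Finset Cube := Icc 1 k ×ˢ Icc 1 l ×ˢ Icc 1 m

/-- Two cubes share a face: they differ by one in exactly one coordinate. -/
def Nb (a b : Cube) : Prop :=
  Nat.dist a.1 b.1 + Nat.dist a.2.1 b.2.1 + Nat.dist a.2.2 b.2.2 = 1

instance (a b : Cube) : Decidable (Nb a b) := by unfold Nb; infer_instance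

/-- A move deletes a cube having exactly three neighbours in the current position. -/
def Move (P Q : Finset Cube) : Prop :=
  ∃ c ∈ P, (P.filter (fun b => Nb c b)).card = 3 ∧ Q = P.erase c

/-- The box has a solution: an independent position reachable by a dismantling. -/
def HasSolution (k l m : ℕ) : Prop :=
  ∃ S : Finset Cube, Relation.ReflTransGen Move (box k l m) S ∧ ∀ a ∈ S, ∀ b ∈ S, ¬ Nb a b

def run : List Cube → Finset Cube → Bool
  | [], P => decide (∀ a ∈ P, ∀ b ∈ P, ¬ Nb a b)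
  | c :: l, P => decide (c ∈ P) && decide ((P.filter (fun b => Nb c b)).card = 3) &&
      run l (P.erase c)

lemma run_ok : ∀ (l : List Cube) (P : Finset Cube), run l P = true →
    ∃ S : Finset Cube, Relation.ReflTransGen Move P S ∧ ∀ a ∈ S, ∀ b ∈ S, ¬ Nb a b
  | [], P, h => ⟨P, .refl, by simpa [run] using h⟩
  | c :: l, P, h => by
    simp only [run, Bool.and_eq_true, decide_eq_true_eq] at h
    obtain ⟨S, h1, h2⟩ := run_ok l _ h.2
    exact ⟨S, .head ⟨c, h.1.1, h.1.2, rfl⟩ h1, h2⟩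

def moves : List Cube := [(1, 1, 1), (1, 2, 1), (1, 1, 2), (1, 2, 2), (3, 3, 1), (3, 3, 6), (1, 3, 2), (3, 2, 1), (3, 3, 2), (3, 3, 5), (1, 3, 3), (3, 2, 2), (3, 3, 4), (1, 3, 4), (3, 1, 2), (2, 3, 4), (3, 1, 3), (2, 3, 3), (3, 2, 3), (1, 2, 3), (2, 2, 3), (3, 2, 4), (2, 1, 3), (2, 2, 4), (2, 1, 4), (1, 1, 4), (1, 1, 5), (1, 3, 5), (2, 1, 5), (1, 2, 5), (3, 2, 6), (3, 1, 5), (2, 3, 6), (2, 3, 1), (2, 2, 5), (2, 2, 2), (2, 1, 6), (2, 1, 1), (1, 2, 6)]

lemma sol : HasSolution 3 3 6 := run_ok moves _ (by decide +kernel)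

theorem result : HasSolution 3 3 6 ∧
    ¬ ((∀ k, 3 ≤ k → k ≠ 5 → ¬ HasSolution 2 2 k) ∧ (∀ k, 1 ≤ k → k ≠ 6 → ¬ HasSolution 2 3 k) ∧
      (∀ k, Odd k → HasSolution 3 3 k) ∧
      (∀ k, 1 ≤ k → Even k → k ≠ 4 → ¬ HasSolution 3 3 k)) :=
  ⟨sol, fun h => h.2.2.2 6 (by norm_num) (by decide) (by norm_num) sol⟩

end Pool.Agent.Results.MP_93d976_co.Counter
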